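import Pool.Agent.Helper95.KZ.Goals

/-!
# Project KZ, packet PRE
-/

set_option autoImplicit false

namespace Pool.Agent.Helper13.KZ

open Pool.Agent.Helper95.KZ

universe u

theorem pre : PreStmt.{u} := by
  intro Γ _ K hK hKf ⟨A, hA, ⟨φ⟩⟩
  have hKfin : Finite K := hKf
  let e : ℤ × ℤ → Γ := fun x => (φ.symm (Multiplicative.ofAdd x) : Γ)
  have e_add : ∀ x y, e (x + y) = e x * e y := by
    intro x y
    change ((φ.symm (Multiplicative.ofAdd (x + y)) : A) : Γ) = _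
    rw [ofAdd_add, map_mul]
    rfl
  have e_zero : e 0 = 1 := by
    change ((φ.symm (Multiplicative.ofAdd 0) : A) : Γ) = _
    rw [ofAdd_zero, map_one]
    rfl
  have e_inj : ∀ x, e x = 1 → x = 0 := by
    intro x hx
    have h1 : φ.symm (Multiplicative.ofAdd x) = 1 := Subtype.ext hx
    have h2 : Multiplicative.ofAdd x = 1 := by
      apply φ.symm.injective
      rw [h1, map_one]
    exact h2
  have e_pow : ∀ (x : ℤ × ℤ) (n : ℕ), e x ^ n = e ((n : ℤ) • x) := by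
    intro x n
    induction n with
    | zero => rw [pow_zero, Nat.cast_zero, zero_smul, e_zero]
    | succ n ih =>
      rw [pow_succ, ih, ← e_add]
      congr 1
      push_cast
      rw [add_smul, one_smul]
  have e_inv : ∀ x, (e x)⁻¹ = e (-x) := by
    intro x
    rw [inv_eq_iff_mul_eq_one, ← e_add, add_neg_cancel, e_zero]
  have e_zpow : ∀ (x : ℤ × ℤ) (n : ℤ), e x ^ n = e (n • x) := by
    intro x n
    obtain ⟨m, rfl | rfl⟩ := n.eq_nat_or_neg
    · rw [zpow_natCast, e_pow]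
    · rw [zpow_neg, zpow_natCast, e_pow, e_inv, neg_smul]
  have e_surj : ∀ g ∈ A, ∃ x, e x = g := by
    intro g hg
    refine ⟨Multiplicative.toAdd (φ ⟨g, hg⟩), ?_⟩
    change ((φ.symm (Multiplicative.ofAdd (Multiplicative.toAdd (φ ⟨g, hg⟩))) : A) : Γ) = g
    rw [ofAdd_toAdd, MulEquiv.symm_apply_apply]
  have hAut : Finite (MulAut K) :=
    Finite.of_injective (fun f : MulAut K => (f : K → K)) DFunLike.coe_injective
  obtain ⟨N, hN0, hN⟩ : ∃ N : ℕ, 0 < N ∧ ∀ g : Γ, ∀ k ∈ K, g ^ N * k = k * g ^ N := by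
    refine ⟨Nat.card (MulAut K), Nat.card_pos, fun g k hk => ?_⟩
    have h1 : MulAut.conjNormal (H := K) (g ^ Nat.card (MulAut K)) = 1 := by
      rw [map_pow, pow_card_eq_one']
    have h2 := MulAut.conjNormal_apply (H := K) (g ^ Nat.card (MulAut K)) ⟨k, hk⟩
    rw [h1] at h2
    have h3 : k = g ^ Nat.card (MulAut K) * k * (g ^ Nat.card (MulAut K))⁻¹ := h2
    calc g ^ Nat.card (MulAut K) * k
        = (g ^ Nat.card (MulAut K) * k * (g ^ Nat.card (MulAut K))⁻¹) *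
          g ^ Nat.card (MulAut K) := by group
      _ = k * g ^ Nat.card (MulAut K) := by rw [← h3]
  have hcomm : ∀ x y, e x * e y = e y * e x := by
    intro x y
    rw [← e_add, ← e_add, add_comm]
  have hab : ∀ i j : ℤ, (e (1, 0) ^ N) ^ i * (e (0, 1) ^ N) ^ j = e (N * i, N * j) := by
    intro i j
    rw [e_pow, e_pow, e_zpow, e_zpow, ← e_add]
    congr 1
    ext
    · simp [mul_comm]
    · simp [mul_comm]
  refine ⟨e (1, 0) ^ N, e (0, 1) ^ N, ?_, fun k hk => hN _ k hk, fun k hk => hN _ k hk, ?_, ?_⟩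
  · rw [e_pow, e_pow, hcomm]
  · intro i j hij
    rw [hab] at hij
    have h1 := e_inj _ hij
    have h2 : (N : ℤ) * i = 0 := congrArg Prod.fst h1
    have h3 : (N : ℤ) * j = 0 := congrArg Prod.snd h1
    have hN' : (N : ℤ) ≠ 0 := by omega
    exact ⟨(mul_eq_zero.mp h2).resolve_left hN', (mul_eq_zero.mp h3).resolve_left hN'⟩
  · have hq : Finite (Γ ⧸ A) := inferInstance
    refine ⟨Set.range (fun x : (Fin N × Fin N) × (Γ ⧸ A) =>
      e (((x.1.1 : ℕ) : ℤ), ((x.1.2 : ℕ) : ℤ)) * (x.2.out)⁻¹), Set.finite_range _, ?_⟩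
    intro g
    obtain ⟨h, hh⟩ := QuotientGroup.mk_out_eq_mul A g⁻¹
    obtain ⟨x, hx⟩ := e_surj h h.2
    have hNz : (0 : ℤ) < N := by omega
    have hr : ∀ t : ℤ, ∃ r : Fin N, ((r : ℕ) : ℤ) = t % N := by
      intro t
      have h0 := Int.emod_nonneg t hNz.ne'
      have h1 := Int.emod_lt_of_pos t hNz
      exact ⟨⟨(t % N).toNat, by omega⟩, by
        change (((t % N).toNat : ℕ) : ℤ) = t % N
        omega⟩
    obtain ⟨r1, hr1⟩ := hr x.1
    obtain ⟨r2, hr2⟩ := hr x.2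
    refine ⟨x.1 / N, x.2 / N, _, ⟨((r1, r2), ((g⁻¹ : Γ) : Γ ⧸ A)), rfl⟩, ?_⟩
    change g = _ * (e (((r1 : ℕ) : ℤ), ((r2 : ℕ) : ℤ)) * (Quotient.out ((g⁻¹ : Γ) : Γ ⧸ A))⁻¹)
    rw [hab, ← mul_assoc, ← e_add, hr1, hr2, hh, ← hx]
    have h2 : ((N : ℤ) * (x.1 / N), (N : ℤ) * (x.2 / N)) + (x.1 % N, x.2 % N) = x := by
      ext
      · exact Int.mul_ediv_add_emod _ _
      · exact Int.mul_ediv_add_emod _ _
    rw [h2]
    group

end Pool.Agent.Helper13.KZ
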